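import Pool.Graph.R_pool_sql_team_seeded_63374d34.N334.W.Stm

/-!
# One of `ζ(5)`, `ζ(7)` is irrational: definitions

The Hankel determinants are those of the library project `N334/W` with `b = 2`, `h = 6`, `n = 20 ν`, `m = 3 (n - 1)`. All
estimates at the primes and the non-vanishing are in the library; what is new is the archimedean bound.

Roots (variable `t`): `18ν - 3` real roots of spacing `1/3` in `(0, 6ν-1)`, then `15 ν` roots of spacing `1/3` (parameter) and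
`6 ν` roots of spacing `2/3` on the ray `6ν - 1 + r (1 + 2 i)`, and the complex conjugates.
-/

open Polynomial Pool.Agent.H337R2 Pool.Agent.N334.W Filter Topology

namespace Pool.Agent.H475.ZW

noncomputable section

/-- direction of the upper ray -/
def ee : ℂ := ⟨1, 2⟩

/-- direction of the lower ray -/
def eb : ℂ := ⟨1, -2⟩

/-- size of the determinant -/
def mm (ν : ℕ) : ℕ := 3 * (20 * ν - 1)

/-- `T = 6 ν - 1` -/
def TT (ν : ℕ) : ℕ := 6 * ν - 1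

/-- the roots, `j < mm ν` -/
def rt (ν j : ℕ) : ℂ :=
  if j < 3 * TT ν then (2 * (j : ℂ) + 1) / 6
  else if j < 3 * TT ν + 15 * ν then (TT ν : ℂ) + (((j - 3 * TT ν : ℕ) : ℂ) + 1) / 3 * ee
  else if j < 3 * TT ν + 21 * ν then
    (TT ν : ℂ) + 5 * (ν : ℂ) * ee + 2 * (((j - (3 * TT ν + 15 * ν) : ℕ) : ℂ) + 1) / 3 * ee
  else if j < 3 * TT ν + 36 * ν then (TT ν : ℂ) + (((j - (3 * TT ν + 21 * ν) : ℕ) : ℂ) + 1) / 3 * eb
  else (TT ν : ℂ) + 5 * (ν : ℂ) * eb + 2 * (((j - (3 * TT ν + 36 * ν) : ℕ) : ℂ) + 1) / 3 * eb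

/-- `x(t) = t (t + 4n)`, `n = 20 ν` -/
def xc (ν : ℕ) (z : ℂ) : ℂ := z * (z + 80 * (ν : ℂ))

/-- `R(t) = ((2n)!)^6 (2t+4n) / ∏_{k=n}^{3n} (t+k)^6`, `n = 20 ν` -/
def Rc (ν : ℕ) (z : ℂ) : ℂ :=
  ((40 * ν).factorial : ℂ) ^ 6 * (2 * z + 80 * (ν : ℂ)) / (∏ k ∈ Finset.Icc (20 * ν) (60 * ν), (z + (k : ℂ))) ^ 6

/-- the Lagrange polynomials `∏_{j ≠ i} (X - x(v_j))` -/
def Lp (ν i : ℕ) : ℂ[X] := ∏ j ∈ (Finset.range (mm ν)).erase i, (X - C (xc ν (rt ν j)))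

/-- `|Π(x(z))| = ∏_j |z - v_j| |z + v_j + 4n|` -/
def PiU (ν : ℕ) (z : ℂ) : ℝ := ∏ j ∈ Finset.range (mm ν), (‖z - rt ν j‖ * ‖z + rt ν j + 80 * (ν : ℂ)‖)

/-- the linear form on complex polynomials -/
def Lc (u : ℕ → ℚ) (ν : ℕ) (Q : ℂ[X]) : ℂ := Q.sum fun k a => a * ((NL 2 6 (20 * ν) u (X ^ k) : ℚ) : ℂ)

/-! ### potentials -/

/-- four logarithmic terms of the rays -/
def gU (ζ : ℂ) (s : ℝ) : ℝ :=
  Real.log ‖ζ - 3 / 10 - s * ee‖ + Real.log ‖ζ + 43 / 10 + s * ee‖ +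
    Real.log ‖ζ - 3 / 10 - s * eb‖ + Real.log ‖ζ + 43 / 10 + s * eb‖

/-- potential of the roots (scaled by `n`) -/
def U (ζ : ℂ) : ℝ :=
  3 * (∫ s in (0 : ℝ)..(3 / 10), (Real.log ‖ζ - s‖ + Real.log ‖ζ + 4 + s‖)) +
    3 * (∫ s in (0 : ℝ)..(1 / 4), gU ζ s) + 3 / 2 * ∫ s in (1 / 4 : ℝ)..(9 / 20), gU ζ s

/-- potential of the weight -/
def VR (ζ : ℂ) : ℝ := 12 * Real.log 2 - 12 - 6 * ∫ s in (1 : ℝ)..3, Real.log ‖ζ + s‖

/-- the field on the ray `3/10 + r (1 + 2 i)` -/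
def PhiC (r : ℝ) : ℝ := VR (3 / 10 + r * ee) + 2 * U (3 / 10 + r * ee) - 4 * Real.pi * r

/-- the field at the real nodes -/
def PhiR (s : ℝ) : ℝ := VR s + 2 * U s

/-- the level `-12.72` -/
def l0 : ℝ := -(318 / 25)

/-- energy of the roots -/
def II : ℝ :=
  3 * (∫ s in (0 : ℝ)..(3 / 10), U s) +
    3 * (∫ s in (0 : ℝ)..(1 / 4), (U (3 / 10 + s * ee) + U (3 / 10 + s * eb))) +
    3 / 2 * ∫ s in (1 / 4 : ℝ)..(9 / 20), (U (3 / 10 + s * ee) + U (3 / 10 + s * eb))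

/-- the part of the real nodes -/
def NN : ℝ := 3 * ∫ s in (0 : ℝ)..(3 / 10), max (PhiR s - l0) 0

/-- `Re (w log w)` -/
def G (w : ℂ) : ℝ := (w * Complex.log w).re

def GA (w : ℂ) : ℝ := 3 * G w - 3 / 2 * G (w - 1 / 4) - 3 / 2 * G (w - 9 / 20)

def GB (w : ℂ) : ℝ := -3 * G w + 3 / 2 * G (w + 1 / 4) + 3 / 2 * G (w + 9 / 20)

/-- `ee / eb = (-3 + 4 i) / 5` -/
def kp : ℂ := ⟨-3 / 5, 4 / 5⟩

/-- `(4.6)/ee`, `(4.6)/eb` -/
def wd : ℂ := ⟨23 / 25, -(46 / 25)⟩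

def wu : ℂ := ⟨23 / 25, 46 / 25⟩

/-- the derivative of `PhiC` -/
def PhiC1 (r : ℝ) : ℝ :=
  -6 * (ee * (Complex.log (33 / 10 + r * ee) - Complex.log (13 / 10 + r * ee))).re - 4 * Real.pi +
    6 * (ee * (Complex.log (3 / 10 + r * ee) - Complex.log (r * ee) + Complex.log (23 / 5 + r * ee) -
      Complex.log (43 / 10 + r * ee))).re +
    2 * (3 * Real.log r - 3 / 2 * Real.log (r - 1 / 4) - 3 / 2 * Real.log (r - 9 / 20)) +
    2 * (-3 * Complex.log (wd + r) + 3 / 2 * Complex.log (wd + r + 1 / 4) +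
      3 / 2 * Complex.log (wd + r + 9 / 20)).re +
    2 * (kp * (3 * Complex.log (kp * r) - 3 / 2 * Complex.log (kp * r - 1 / 4) -
      3 / 2 * Complex.log (kp * r - 9 / 20))).re +
    2 * (kp * (-3 * Complex.log (wu + kp * r) + 3 / 2 * Complex.log (wu + kp * r + 1 / 4) +
      3 / 2 * Complex.log (wu + kp * r + 9 / 20))).re

/-- the second derivative of `PhiC` -/
def PhiC2 (r : ℝ) : ℝ :=
  -6 * (ee ^ 2 * (1 / (33 / 10 + r * ee) - 1 / (13 / 10 + r * ee))).re +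
    6 * (ee ^ 2 * (1 / (3 / 10 + r * ee) - 1 / (r * ee) + 1 / (23 / 5 + r * ee) - 1 / (43 / 10 + r * ee))).re +
    2 * (3 / r - 3 / 2 / (r - 1 / 4) - 3 / 2 / (r - 9 / 20)) +
    2 * (-3 / (wd + r) + 3 / 2 / (wd + r + 1 / 4) + 3 / 2 / (wd + r + 9 / 20)).re +
    2 * (kp ^ 2 * (3 / (kp * r) - 3 / 2 / (kp * r - 1 / 4) - 3 / 2 / (kp * r - 9 / 20))).re +
    2 * (kp ^ 2 * (-3 / (wu + kp * r) + 3 / 2 / (wu + kp * r + 1 / 4) + 3 / 2 / (wu + kp * r + 9 / 20))).re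

end

end Pool.Agent.H475.ZW
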