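import Pool.Agent.H475.ZW.Defs

/-!
# One of `ζ(5)`, `ζ(7)` is irrational: statements of the parts

Each part `S_X` is proved in its own file `Pool/Agent/H475/ZW/P_X.lean` by `theorem t_X : S_X` (possibly with other `S_Y` as
hypotheses).
-/

open Polynomial Pool.Agent.H337R2 Pool.Agent.N334.W Filter Topology

namespace Pool.Agent.H475.ZW

noncomputable section

/-! ### closed forms -/

/-- GI: `∫_0^L log |w - s| ds = G w - G (w - L) - L` (for all complex `w`; `d/dw (w log w - w) = log w`; if `Im w = 0` it is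
the real formula). -/
def S_GI : Prop := ∀ (w : ℂ) (L : ℝ), 0 ≤ L →
  IntervalIntegrable (fun s : ℝ => Real.log ‖w - s‖) MeasureTheory.volume 0 L ∧
  ∫ s in (0 : ℝ)..L, Real.log ‖w - s‖ = G w - G (w - L) - L

/-- GC: `G` is continuous (also across the negative real axis) and even under conjugation. -/
def S_GC : Prop := Continuous G ∧ ∀ w : ℂ, G ((starRingEnd ℂ) w) = G w

/-- UG: closed forms of the potentials (from `S_GI`; `log |ζ - 3/10 - s e| = log |e| + log |(ζ - 3/10)/e - s|`, `|e|² = 5`;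
`log |ζ + 4 + s|`: substitute `s = 3/10 - s'`, etc.) -/
def S_UG : Prop :=
  (∀ ζ : ℂ, U ζ = 3 * (G ζ - G (ζ - 3 / 10) + G (ζ + 43 / 10) - G (ζ + 4)) +
    GA ((ζ - 3 / 10) / ee) + GA ((ζ - 3 / 10) / eb) + GB ((ζ + 43 / 10) / ee) + GB ((ζ + 43 / 10) / eb) -
    6 + 21 / 10 * Real.log 5) ∧
  (∀ ζ : ℂ, VR ζ = 6 * (2 * Real.log 2 - (G (ζ + 3) - G (ζ + 1))))

/-- UC: continuity and conjugation symmetry (from `S_UG`, `S_GC`; note `GA ((conj ζ - 3/10)/eb) = GA ((ζ - 3/10)/ee)`) -/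
def S_UC : Prop := Continuous U ∧ Continuous VR ∧
  ∀ ζ : ℂ, U ((starRingEnd ℂ) ζ) = U ζ ∧ VR ((starRingEnd ℂ) ζ) = VR ζ

/-! ### sums of logarithms -/

/-- SUMU: upper bound of a sum of logarithms along an arithmetic progression by the integral. PROOF. The function
`f(s) = log |Z - s e|` is decreasing, then increasing in `s` (minimum at the projection `s₀` of `Z` on the line). For the
points `s_j = (j+1) σ` left of `s₀` use `f(s_j) ≤ (1/σ) ∫_{s_j - σ}^{s_j} f`, right of `s₀` use the right interval; the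
uncovered interval around `s₀` has length `≤ 2σ` and `∫ f ≥ ∫ log |(s - s₀) e| ≥ -C` over it; the intervals that stick out at
the ends contribute `O(log (‖Z‖+N+2))`. The shift `Z → Z'`, `‖Z - Z'‖ ≤ 4`, changes the integral by `O(log)` because
`|log |Z - s e| - log |Z' - s e|| ≤ 4 / min(…)` away from the projection, and is integrable near it. (Lean's `log 0 = 0` is
harmless: at most one point has `Z = s_j e`.) -/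
def S_SUMU : Prop := ∀ (e : ℂ) (σ : ℝ), e ≠ 0 → 0 < σ → ∃ C : ℝ, 0 < C ∧ ∀ (N : ℕ) (Z Z' : ℂ), ‖Z - Z'‖ ≤ 4 →
  ∑ j ∈ Finset.range N, Real.log ‖Z - (((j : ℝ) + 1) * σ : ℝ) * e‖ ≤
    1 / σ * (∫ s in (0 : ℝ)..(N * σ), Real.log ‖Z' - s * e‖) + C * Real.log (‖Z‖ + N + 2)

/-- SUML: lower bound (at most 3 terms are omitted, the others have `|Z - s_j e| ≥ 1/100`). -/
def S_SUML : Prop := ∀ (e : ℂ) (σ : ℝ), e ≠ 0 → 0 < σ → ∃ C : ℝ, 0 < C ∧ ∀ (N : ℕ) (Z Z' : ℂ) (S : Finset ℕ),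
  ‖Z - Z'‖ ≤ 4 → S ⊆ Finset.range N → N ≤ S.card + 3 →
  (∀ j ∈ S, 1 / 100 ≤ ‖Z - (((j : ℝ) + 1) * σ : ℝ) * e‖) →
  1 / σ * (∫ s in (0 : ℝ)..(N * σ), Real.log ‖Z' - s * e‖) ≤
    ∑ j ∈ S, Real.log ‖Z - (((j : ℝ) + 1) * σ : ℝ) * e‖ + C * Real.log (‖Z‖ + N + 2)

/-- EDGE: short intervals -/
def S_EDGE : Prop := ∀ e : ℂ, e ≠ 0 → ∃ C : ℝ, 0 < C ∧ ∀ (Z : ℂ) (a b : ℝ), |b - a| ≤ 4 →
  |∫ s in a..b, Real.log ‖Z - s * e‖| ≤ C * Real.log (‖Z‖ + |a| + |b| + 2)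

/-- FAM: the five families of roots -/
def S_FAM : Prop := ∀ (ν : ℕ) (F : ℂ → ℝ), 1 ≤ ν →
  ∑ j ∈ Finset.range (mm ν), F (rt ν j) =
    ∑ k ∈ Finset.range (3 * TT ν), F ((2 * (k : ℂ) + 1) / 6) +
    ∑ k ∈ Finset.range (15 * ν), (F ((TT ν : ℂ) + ((k : ℂ) + 1) / 3 * ee) + F ((TT ν : ℂ) + ((k : ℂ) + 1) / 3 * eb)) +
    ∑ k ∈ Finset.range (6 * ν), (F ((TT ν : ℂ) + 5 * (ν : ℂ) * ee + 2 * ((k : ℂ) + 1) / 3 * ee) +
      F ((TT ν : ℂ) + 5 * (ν : ℂ) * eb + 2 * ((k : ℂ) + 1) / 3 * eb))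

/-- SEP: the roots are separated, away from the real axis integers, and in the right half plane -/
def S_SEP : Prop := ∀ ν : ℕ, 1 ≤ ν → ∀ i < mm ν, (0 < (rt ν i).re ∧ ‖rt ν i‖ ≤ 60 * ν) ∧
  (∀ j < mm ν, i ≠ j → 1 / 3 ≤ ‖rt ν i - rt ν j‖) ∧
  (∀ t < TT ν, 1 / 6 ≤ ‖(t : ℂ) - rt ν i‖) ∧
  (∀ r : ℝ, 0 ≤ r → 1 / 10 ≤ ‖((TT ν : ℂ) - 1 / 3 + r * ee) - rt ν i‖ ∧
    1 / 10 ≤ ‖((TT ν : ℂ) - 1 / 3 + r * eb) - rt ν i‖)

/-- UP: `|Π(x(z))|` (from FAM, SUMU, EDGE; `z + v + 4n = - ((- z - 4n) - v)`; scaling `s = n s'`, `n = 20 ν`; the real roots are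
`-1/6 + (j+1)/3`) -/
def S_UP : Prop := ∃ C : ℝ, 0 < C ∧ ∀ (ν : ℕ) (z z' : ℂ), 1 ≤ ν → ‖z - z'‖ ≤ 2 →
  PiU ν z ≤ Real.exp (20 * ν * U (z' / (20 * (ν : ℂ))) + 120 * ν * Real.log (20 * ν) +
    C * Real.log (‖z‖ + 20 * ν + 2))

/-- LO: lower bound of the distances between the roots (from FAM, SUML, EDGE, SEP) -/
def S_LO : Prop := ∃ C : ℝ, 0 < C ∧ ∀ ν : ℕ, 1 ≤ ν → ∀ i < mm ν,
  20 * ν * U (rt ν i / (20 * (ν : ℂ))) + 120 * ν * Real.log (20 * ν) - C * Real.log (20 * ν + 2) ≤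
    ∑ j ∈ (Finset.range (mm ν)).erase i, (Real.log ‖rt ν i - rt ν j‖ + Real.log ‖rt ν i + rt ν j + 80 * (ν : ℂ)‖)

/-- RW: the weight. `∏_{k=n}^{3n} |z + k| ≥ exp (∫_n^{3n} log |z + s| ds)` because `|z + s|` increases with `s` if `Re z ≥ 0`;
`log (2n)! ≤ 2n log (2n) - 2n + C log n`. -/
def S_RW : Prop := ∃ C : ℝ, 0 < C ∧ ∀ (ν : ℕ) (z z' : ℂ), 1 ≤ ν → 0 ≤ z.re → ‖z - z'‖ ≤ 2 →
  ‖Rc ν z‖ ≤ Real.exp (20 * ν * VR (z' / (20 * (ν : ℂ))) + C * Real.log (‖z‖ + 20 * ν + 2))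

/-- RIE: Riemann sums of the continuous function `U` (from FAM, UC) -/
def S_RIE : Prop := ∀ ε : ℝ, 0 < ε → ∀ᶠ ν : ℕ in atTop,
  (II - ε) * (20 * ν) ≤ ∑ j ∈ Finset.range (mm ν), U (rt ν j / (20 * (ν : ℂ)))

/-- NOD: Riemann sums at the real nodes (from UC) -/
def S_NOD : Prop := ∀ ε : ℝ, 0 < ε → ∀ᶠ ν : ℕ in atTop,
  3 * ∑ t ∈ Finset.range (TT ν), max (PhiR ((t : ℝ) / (20 * ν)) - l0) 0 ≤ 20 * ν * (NN + ε)

/-! ### numerical part -/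

/-- D: the derivatives of `PhiC` (from UG) -/
def S_D : Prop := ∀ r : ℝ, 0 < r → r ≠ 1 / 4 → r ≠ 9 / 20 →
  HasDerivAt PhiC (PhiC1 r) r ∧ HasDerivAt PhiC1 (PhiC2 r) r

/-- V1: true value -12.7745, derivative 0.027 -/
def S_V1 : Prop := PhiC (7 / 125) ≤ -(319 / 25)
def S_V1d : Prop := |PhiC1 (7 / 125)| ≤ 2 / 5
/-- V2: true value -12.8970 -/
def S_V2 : Prop := PhiC (13 / 100) ≤ -(257 / 20)
/-- V3: true value -12.9414 -/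
def S_V3 : Prop := PhiC (1 / 4) ≤ -(129 / 10)
/-- V4: true value -12.8293, derivative -0.008 -/
def S_V4 : Prop := PhiC (29 / 100) ≤ -(64 / 5)
def S_V4d : Prop := |PhiC1 (29 / 100)| ≤ 1
/-- V5: true value -12.8952 -/
def S_V5 : Prop := PhiC (7 / 20) ≤ -(257 / 20)
/-- V6: true value -12.8803 -/
def S_V6 : Prop := PhiC (9 / 20) ≤ -(321 / 25)
/-- V7: true value -12.8012, derivative -0.5468 -/
def S_V7 : Prop := PhiC (12 / 25) ≤ -(639 / 50)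
def S_V7d : Prop := -1 ≤ PhiC1 (12 / 25) ∧ PhiC1 (12 / 25) ≤ -(1 / 5)

/-- C1: concavity on `(0, 0.13]` (maximum of `PhiC2` there: -3.44 at 0.13; PhiC2 = rational function of `r`) -/
def S_C1 : Prop := ∀ r : ℝ, 0 < r → r ≤ 13 / 100 → PhiC2 r ≤ 0
/-- C2: (the minimum is -3.44) -/
def S_C2 : Prop := ∀ r : ℝ, 13 / 100 ≤ r → r < 1 / 4 → -60 ≤ PhiC2 r
/-- C3: (the maximum is -2.81 at 0.35) -/
def S_C3 : Prop := ∀ r : ℝ, 1 / 4 < r → r ≤ 7 / 20 → PhiC2 r ≤ 0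
/-- C4: (the minimum is -2.81) -/
def S_C4 : Prop := ∀ r : ℝ, 7 / 20 ≤ r → r < 9 / 20 → -60 ≤ PhiC2 r
/-- C5: -/
def S_C5 : Prop := ∀ r : ℝ, 9 / 20 < r → r ≤ 2 → PhiC2 r ≤ 0

/-- SUP: the maximum of the field on the ray. `[0, .13]`: concave, tangent at `.056`; `[.13, .25]`: values at the ends and
`PhiC2 ≥ -60`; `[.25, .35]`: concave, tangent at `.29`; `[.35, .45]`: ends, `PhiC2 ≥ -60`; `[.45, 2]`: concave, tangent at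
`.48`; `r ≥ 2`: `U ζ ≤ 6 log (‖ζ‖ + 107/20)`, `VR ζ ≤ 12 log 2 - 12 - 12 log ‖ζ + 1‖`, `‖ζ‖ + 107/20 ≤ 1.93 ‖ζ + 1‖`.
From UC, D, V1, V1d, ..., C5. -/
def S_SUP : Prop := ∀ r : ℝ, 0 ≤ r → PhiC r ≤ l0 ∧ (1 ≤ r → PhiC r ≤ l0 - r / 10)

/-- W0..W7: values at the real nodes; true values -8.7762, -9.9615, -10.7897, -11.4645, -12.0249, -12.4831, -12.8346, -13.0163 -/
def S_W0 : Prop := PhiR 0 ≤ -(877 / 100)
def S_W1 : Prop := PhiR (1 / 25) ≤ -(1991 / 200)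
def S_W2 : Prop := PhiR (2 / 25) ≤ -(539 / 50)
def S_W3 : Prop := PhiR (3 / 25) ≤ -(2291 / 200)
def S_W4 : Prop := PhiR (4 / 25) ≤ -(2403 / 200)
def S_W5 : Prop := PhiR (1 / 5) ≤ -(499 / 40)
def S_W6 : Prop := PhiR (6 / 25) ≤ -(64 / 5)
def S_W7 : Prop := PhiR (3 / 10) ≤ -(129 / 10)

/-- NCV: convexity (the second derivative is at least 62) -/
def S_NCV : Prop := ConvexOn ℝ (Set.Icc 0 (3 / 10)) PhiR

/-- NN: trapezoidal rule for the convex function `max (PhiR - l0) 0` at `0, 1/25, …, 6/25, 3/10` (from NCV, W0..W7, UC) -/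
def S_NN : Prop := NN ≤ 27 / 25

/-- Q1, Q2, Q3: parts of the energy; true values 0.11624, 0.33786, 0.70435. (From UG; antiderivative of `G (w + c s)` is
`Re ((w+cs)² (log (w+cs) / 2 - 1/4) / c)`.) -/
def S_Q1 : Prop := 23 / 200 ≤ ∫ s in (0 : ℝ)..(3 / 10), U s
def S_Q2 : Prop := 42 / 125 ≤ ∫ s in (0 : ℝ)..(1 / 4), U (3 / 10 + s * ee)
def S_Q3 : Prop := 351 / 500 ≤ ∫ s in (1 / 4 : ℝ)..(9 / 20), U (3 / 10 + s * ee)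

/-- II: the energy (from Q1, Q2, Q3, UC: `II = 3 q₁ + 6 q₂ + 3 q₃`) -/
def S_II : Prop := 223 / 50 ≤ II

/-! ### contour integral -/

/-- the kernel `π³ cos(πz)/sin³(πz)` -/
def KK (z : ℂ) : ℂ := ∑' t : ℤ, 1 / (z - (t : ℂ)) ^ 3

/-- KQ: the kernel is holomorphic off the integers, bounded by `C e^{-2π y}` on the sectors between the vertical line and the
rays `T - 1/3 + r (1 ± 2i)`. (Mathlib: the Lipschitz formula / `EisensteinSeries.qExpansion_identity` for `Im z > 0`; near the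
real axis the sum is bounded because the distance from the integers is at least 1/4.) -/
def S_KQ : Prop := ∃ C : ℝ, 0 < C ∧ ∀ (T : ℕ) (x y : ℝ), 1 ≤ T → 0 ≤ x → x ≤ |y| / 2 →
  ‖KK ((T : ℂ) - 1 / 3 + ⟨x, y⟩)‖ ≤ C * Real.exp (-(2 * Real.pi * |y|)) ∧
  DifferentiableAt ℂ KK ((T : ℂ) - 1 / 3 + ⟨x, y⟩)

/-- CAU: Cauchy's formula on a vertical line (`t` right of the line: `-π f''(t)`; left: `0`) -/
def S_CAU : Prop := ∀ (T : ℕ) (f : ℂ → ℂ) (M : ℝ), 1 ≤ T → DifferentiableOn ℂ f {z | 0 < z.re} →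
  (∀ z : ℂ, 1 / 2 ≤ z.re → ‖f z‖ ≤ M / (1 + ‖z‖ ^ 2)) → ∀ t : ℤ,
  ∫ y : ℝ, f ((T : ℂ) - 1 / 3 + ⟨0, y⟩) / ((T : ℂ) - 1 / 3 + ⟨0, y⟩ - (t : ℂ)) ^ 3 =
    if (T : ℤ) ≤ t then -(Real.pi : ℂ) * iteratedDeriv 2 f (t : ℂ) else 0

/-- SER: summation of CAU over `t ∈ ℤ` (dominated convergence) -/
def S_SER : Prop := ∀ (T : ℕ) (f : ℂ → ℂ) (M : ℝ), 1 ≤ T → DifferentiableOn ℂ f {z | 0 < z.re} →
  (∀ z : ℂ, 1 / 2 ≤ z.re → ‖f z‖ ≤ M / (1 + ‖z‖ ^ 2)) →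
  Summable (fun t : ℕ => iteratedDeriv 2 f ((T + t : ℕ) : ℂ)) ∧
  (Real.pi : ℂ) * ∑' t : ℕ, iteratedDeriv 2 f ((T + t : ℕ) : ℂ) =
    -∫ y : ℝ, f ((T : ℂ) - 1 / 3 + ⟨0, y⟩) * KK ((T : ℂ) - 1 / 3 + ⟨0, y⟩)

/-- ROT: rotation of a half line. `g` is holomorphic near the closed sector `b + {0 ≤ x ≤ y/2}` and `O(1/|z|²)`; then the
integrals over the two sides agree. (Substitute `z = b + e^w`: horizontal lines of a strip.) Also for the lower sector. -/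
def S_ROT : Prop := ∀ (b : ℂ) (g : ℂ → ℂ) (M : ℝ),
  ((∀ x y : ℝ, 0 ≤ x → x ≤ y / 2 → DifferentiableAt ℂ g (b + ⟨x, y⟩) ∧ ‖g (b + ⟨x, y⟩)‖ ≤ M / (1 + y ^ 2)) →
    ∫ y in Set.Ioi (0 : ℝ), g (b + ⟨0, y⟩) * Complex.I = ∫ r in Set.Ioi (0 : ℝ), g (b + r * ee) * ee) ∧
  ((∀ x y : ℝ, 0 ≤ x → x ≤ -y / 2 → DifferentiableAt ℂ g (b + ⟨x, y⟩) ∧ ‖g (b + ⟨x, y⟩)‖ ≤ M / (1 + y ^ 2)) →
    ∫ y in Set.Ioi (0 : ℝ), g (b + ⟨0, -y⟩) * (-Complex.I) = ∫ r in Set.Ioi (0 : ℝ), g (b + r * eb) * eb)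

/-- CT: the bound of the tail sum (from KQ, SER, ROT) -/
def S_CT : Prop := ∃ C : ℝ, 0 < C ∧ ∀ (T : ℕ) (f : ℂ → ℂ) (M B : ℝ), 1 ≤ T → DifferentiableOn ℂ f {z | 0 < z.re} →
  (∀ z : ℂ, 1 / 2 ≤ z.re → ‖f z‖ ≤ M / (1 + ‖z‖ ^ 2)) → 0 ≤ B →
  (∀ r : ℝ, 0 ≤ r → ‖f ((T : ℂ) - 1 / 3 + r * ee)‖ * Real.exp (-(4 * Real.pi * r)) * (1 + r) ^ 2 ≤ B ∧
    ‖f ((T : ℂ) - 1 / 3 + r * eb)‖ * Real.exp (-(4 * Real.pi * r)) * (1 + r) ^ 2 ≤ B) →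
  Summable (fun t : ℕ => iteratedDeriv 2 f ((T + t : ℕ) : ℂ)) ∧
  ‖∑' t : ℕ, iteratedDeriv 2 f ((T + t : ℕ) : ℂ)‖ ≤ C * B

/-! ### determinants -/

/-- LAG: the Hankel determinant in the Lagrange basis. `Λ(Q) = ∑_k Q_k a_k`. PROOF. `(Λ(L_i L_j)) = C H Cᵗ`, `C` = coefficients
of the `L_i`, and `C V = diag(L_i(y_i))` with the Vandermonde matrix `V`, so `|det C| = ∏_{i<j} |y_i - y_j|` (if the `y_i` are
distinct; otherwise both sides vanish). -/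
def S_LAG : Prop := ∀ (m : ℕ) (a : ℕ → ℂ) (y : ℕ → ℂ),
  ‖(Matrix.of fun i j : Fin m =>
      ((∏ l ∈ (Finset.range m).erase i.1, (X - C (y l))) *
        (∏ l ∈ (Finset.range m).erase j.1, (X - C (y l)))).sum fun k c => c * a k).det‖ =
    ‖(Matrix.of fun i j : Fin m => a (i.1 + j.1)).det‖ *
      ∏ i ∈ Finset.range m, ∏ j ∈ (Finset.range m).erase i, ‖y i - y j‖

/-- EXP: determinant of a matrix with small entries plus `K` matrices of rank one. PROOF. Expand by rows; a rank one matrix is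
used at most once; there are at most `(K+1)^m` choices and each determinant has `m!` terms. -/
def S_EXP : Prop := ∀ (m K : ℕ) (E : Matrix (Fin m) (Fin m) ℂ) (A B : Fin K → Fin m → ℂ) (ε : ℝ) (β : Fin K → ℝ),
  0 < ε → (∀ i j, ‖E i j‖ ≤ ε) → (∀ κ i j, ‖A κ i‖ * ‖B κ j‖ ≤ β κ) →
  ‖(E + Matrix.of fun i j => ∑ κ, A κ i * B κ j).det‖ ≤
    ((K : ℝ) + 1) ^ m * (m.factorial : ℝ) * ε ^ m * ∏ κ, max 1 (β κ / ε)

/-- OMC: the coefficients `ω(t,k)` in terms of the complex function `R` (Taylor coefficients of order 2 of the power series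
`RS` are the Taylor coefficients of `R` at `t`) -/
def S_OMC : Prop := ∀ (ν t : ℕ) (Q : ℂ[X]), 1 ≤ ν →
  ∑ k ∈ Finset.range 3, ((om 2 6 (20 * ν) (t : ℚ) k : ℚ) : ℂ) * (hasseDeriv k Q).eval (xc ν t) =
    1 / 2 * iteratedDeriv 2 (fun z => Rc ν z * Q.eval (xc ν z)) (t : ℂ)

/-- DEC: decomposition of the linear form (from LF, OM1 of the library, OMC, linearity) -/
def S_DEC : Prop := ∀ (u : ℕ → ℚ) (ν : ℕ) (Q : ℂ[X]), 1 ≤ ν →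
  (∀ e, Odd e → 2 + 3 ≤ e → e < 2 + 6 → ((u e : ℚ) : ℝ) = zr e) → Q.natDegree ≤ 2 * (mm ν - 1) →
  Summable (fun t : ℕ => iteratedDeriv 2 (fun z => Rc ν z * Q.eval (xc ν z)) ((TT ν + t : ℕ) : ℂ)) ∧
  Lc u ν Q = ∑ t ∈ Finset.range (TT ν), ∑ k ∈ Finset.range 3,
      ((om 2 6 (20 * ν) (t : ℚ) k : ℚ) : ℂ) * (hasseDeriv k Q).eval (xc ν t) +
    1 / 2 * ∑' t : ℕ, iteratedDeriv 2 (fun z => Rc ν z * Q.eval (xc ν z)) ((TT ν + t : ℕ) : ℂ)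

/-- LB: the Taylor coefficients of the Lagrange polynomials at the real nodes (from SEP): `|y_j - x_t| ≥ (80/6) ν`, so
`|L_i^{[p]}(x_t)| ≤ |L_i(x_t)| (∑_j 1/|x_t - y_j|)^p ≤ C |L_i(x_t)| ≤ C |Π(x_t)|` -/
def S_LB : Prop := ∃ C : ℝ, 0 < C ∧ ∀ ν : ℕ, 1 ≤ ν → ∀ i < mm ν, ∀ t < TT ν, ∀ p ≤ 2,
  ‖(hasseDeriv p (Lp ν i)).eval (xc ν t)‖ ≤ C * PiU ν t

/-- LR: the Lagrange polynomials on the rays (from SEP) -/
def S_LR : Prop := ∀ ν : ℕ, 1 ≤ ν → ∀ i < mm ν, ∀ z : ℂ, 0 ≤ z.re → 1 / 10 ≤ ‖z - rt ν i‖ →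
  ‖(Lp ν i).eval (xc ν z)‖ ≤ PiU ν z

/-! ### assembly -/

/-- EPS: the entries on the contour (from UP, RW, SUP, UC, LR, SEP) -/
def S_EPS : Prop := ∃ C : ℝ, 0 < C ∧ ∀ ν : ℕ, 1 ≤ ν → ∀ i < mm ν, ∀ j < mm ν, ∀ r : ℝ, 0 ≤ r → ∀ e : ℂ, e = ee ∨ e = eb →
  ‖Rc ν ((TT ν : ℂ) - 1 / 3 + r * e) * (Lp ν i * Lp ν j).eval (xc ν ((TT ν : ℂ) - 1 / 3 + r * e))‖ *
      Real.exp (-(4 * Real.pi * r)) * (1 + r) ^ 2 ≤
    Real.exp (20 * ν * l0 + 240 * ν * Real.log (20 * ν) + C * Real.log (20 * ν + 2))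

/-- BET: the entries at the real nodes (from OM2 of the library, UP, RW, LB) -/
def S_BET : Prop := ∃ C : ℝ, 0 < C ∧ ∀ ν : ℕ, 1 ≤ ν → ∀ i < mm ν, ∀ j < mm ν, ∀ t < TT ν, ∀ p q : ℕ, p + q ≤ 2 →
  |((om 2 6 (20 * ν) (t : ℚ) (p + q) : ℚ) : ℝ)| * ‖(hasseDeriv p (Lp ν i)).eval (xc ν t)‖ *
      ‖(hasseDeriv q (Lp ν j)).eval (xc ν t)‖ ≤
    Real.exp (20 * ν * PhiR ((t : ℝ) / (20 * ν)) + 240 * ν * Real.log (20 * ν) + C * Real.log (20 * ν + 2))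

/-- DETB: the determinant (from LAG, EXP, DEC, CT, EPS, BET) -/
def S_DETB : Prop := ∃ C : ℝ, 0 < C ∧ ∀ (u : ℕ → ℚ) (ν : ℕ), 1 ≤ ν →
  (∀ e, Odd e → 2 + 3 ≤ e → e < 2 + 6 → ((u e : ℚ) : ℝ) = zr e) →
  |((DET 2 6 (20 * ν) u (mm ν) : ℚ) : ℝ)| *
      ∏ i ∈ Finset.range (mm ν), ∏ j ∈ (Finset.range (mm ν)).erase i, ‖xc ν (rt ν i) - xc ν (rt ν j)‖ ≤
    Real.exp (mm ν * (20 * ν * l0 + 240 * ν * Real.log (20 * ν)) +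
      20 * ν * (3 * ∑ t ∈ Finset.range (TT ν), max (PhiR ((t : ℝ) / (20 * ν)) - l0) 0) +
      C * ν * Real.log (20 * ν + 2))

/-- AR: the archimedean bound (from DETB, LO, RIE, NOD, NN, II): `3 (-12.72) + 1.08 - 4.46 = -41.54` -/
def S_AR : Prop := ∀ ε : ℝ, 0 < ε → ∀ᶠ ν : ℕ in atTop, ∀ u : ℕ → ℚ,
  (∀ e, Odd e → 2 + 3 ≤ e → e < 2 + 6 → ((u e : ℚ) : ℝ) = zr e) →
  |((DET 2 6 (20 * ν) u ((2 + 1) * (20 * ν - 1)) : ℚ) : ℝ)| ≤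
    Real.exp ((20 * (ν : ℝ)) ^ 2 * (18 * Real.log (20 * (ν : ℝ)) - 2077 / 50 + ε))

/-- NUM: the final numerical inequality; the limit `J → ∞` is `-41.54 - 18 log 2 + 54 = -0.0166` -/
def S_NUM : Prop := ∀ C : ℝ, ∃ J : ℕ, 1 ≤ J ∧
  -(2077 / 50) - 18 * Real.log 2 + 18 * Real.log J + 18 * Real.eulerMascheroniConstant + C / J + e0 3 6 J + 9 < 0

end

end Pool.Agent.H475.ZW
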